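import Pool.Agent.helper74.VDI.SpecB0
import Pool.Agent.helper39.VD.PRD
import Pool.Agent.helper75.VQ.PRV

/-!
# Project INF (MP_07c750_an), row `vdi:PRDB` (one frequency; copy of `helper39/VD/PRD.lean`)
-/

set_option autoImplicit false

open scoped ContDiff Topology InnerProductSpace ENNReal ComplexConjugate
open MeasureTheory Filter Set

namespace Pool.Agent.VDI

open Pool.Agent.RPQ (PN PJ UN upd IsOp nst)
open Pool.Agent.VQ (CH PS KZ perZ cmZ stZ wdZ InvS AdZ vz mZ wM qZ phZ rk)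
open Pool.Agent.VN (aN)
open Pool.Agent.VD
open Pool.Agent.VDE (UWLD FDX)

noncomputable section

theorem PRDB_proof (hDTD : DTDB_stmt) (hVHPD : VHPD_stmt) (hWXD : WXD_stmt) (hPIZ : VQ.PIZ_stmt) (hKSZ : VQ.KSZ_stmt) (hPSY : PSY_stmt)
    (hKZD : KZD_stmt) (hMTD : MTD_stmt) (hVLD : VLD_stmt) (hLEN : LEN_stmt) (hCTD : CTD_stmt) (hSNC : RPQ.SNC_stmt) : PRDB_stmt := by
  classical
  intro d Γ _ _ K F0 r0 χ0 ch k B B' bn Cn hd hK hF hPU hch h e hTD he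
  obtain ⟨CD, hCD, hDT⟩ := hDTD d Γ K F0 r0 χ0 ch k B B' bn hd hK hF hPU hch
  obtain ⟨v0, hv0, hVH2⟩ := hVHPD d Γ K F0 r0 χ0 ch k B Cn hd hK hF hPU hch h (e / 8) hTD (by positivity)
  refine ⟨v0, hv0, ?_⟩
  intro T0 M0 hT0 hM0
  obtain ⟨θ, b, L, n, N, A, a, R1, C2, hθ, hb, hL, hn, hN, hLn, hMθ, hAdm, hNst, ha, hR1, hC2, hVH3⟩ :=
    hVH2 CD T0 (M0 + 1) hCD hT0 (by linarith)
  obtain ⟨δ', R2, hδ', hR2, hDT2⟩ := hDT A h (e / 8) b L n hAdm hTD (by positivity) hb hL hn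
  obtain ⟨R3, hR3, hWX2⟩ := hWXD d Γ K r0 k B N (M0 + 1) hd hK hN (by linarith)
  obtain ⟨Ad, hAd⟩ : ∃ Ad : Finset (List ℕ), ∀ l, l ∈ Ad ↔ l ∈ AdZ b L n :=
    ⟨(VQ.PRV_fin b L n).toFinset, fun l => (VQ.PRV_fin b L n).mem_toFinset⟩
  obtain ⟨CV, hCV, hVL⟩ := hVLD d Γ K k B r0
  have hcnt : Countable Γ := hCTD d Γ K hK
  obtain ⟨Ln, hLn1, hLn2, hLn3, hLn4⟩ := hLEN Γ hcnt
  refine ⟨a, max R1 (max R2 (max R3 ((Ad.card : ℝ) / δ' ^ 2))), C2, ha, hR1.trans (le_max_left _ _), hC2, ?_⟩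
  intro R ρ s J p χ W G Φ hR hρ0 hρ2 hs1 hNet hCls hΦ hU hW
  have hRa : R1 ≤ R := (le_max_left _ _).trans hR
  have hRx := (le_max_right _ _).trans hR
  have hRb : R2 ≤ R := (le_max_left _ _).trans hRx
  have hRy := (le_max_right _ _).trans hRx
  have hRc : R3 ≤ R := (le_max_left _ _).trans hRy
  have hRe : (Ad.card : ℝ) / δ' ^ 2 ≤ R := (le_max_right _ _).trans hRy
  have hR3' : 3 ≤ R := hR1.trans hRa
  have hR0 : 0 < R := by linarith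
  have hRs0 : 0 < R * s := lt_of_lt_of_le (by positivity) hs1
  have hχc : ∀ j, Continuous (χ j) := fun j => (hNet.smooth j).continuous
  have hWc : Continuous W := by
    have h1 := (hW 0 (fun a => by simp)).smooth.continuous
    have h2 : (fun x => W x + s * VF χ (0 : Fin J → ℝ) x) = W := by
      funext x
      unfold VF
      simp
    rw [h2] at h1
    exact h1
  have hM := hCls.met
  obtain ⟨ζ, c0, nc, hH⟩ := hVH3 R ρ (-(R * s)) J p χ G Φ hRa hρ0 hρ2 (by rw [abs_neg, abs_of_pos hRs0]; exact hs1) hNet hCls hΦ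
    (by
      have e1 : e / 8 / 100 = e / 800 := by ring
      rw [e1]
      exact hU)
  obtain ⟨-, -, -, hmeasg, hG1, hB1, hG2, hB2, hGset⟩ := hMTD d Γ G Φ F0 h r0 R (A.tu R) (e / 8) 1 hM hΦ hTD.smooth.continuous
  obtain ⟨-, -, -, -, -, -, -, -, hWset⟩ := hMTD d Γ G Φ F0 h r0 R (A.tu R) (e / 8) 2 hM hΦ hTD.smooth.continuous
  have hSm1 : MeasurableSet (SBD Γ G Φ r0 F0 h (e / 8) (A.tu R) R) := hB1.inter hG1
  have hSm2 : InvS Γ (SBD Γ G Φ r0 F0 h (e / 8) (A.tu R) R) := by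
    intro γ y
    exact and_congr (hB2 γ y) (hG2 γ y)
  have hWm : Measurable fun y : YS Γ d => thP Φ W R (A.tu R) y.2 :=
    hmeasg _ (hMTD d Γ G Φ F0 W r0 R (A.tu R) (e / 8) 1 hM hΦ hWc).1
  have hχm : ∀ j, Measurable fun y : YS Γ d => thP Φ (χ j) (-(R * s)) (A.tu R) y.2 := fun j =>
    hmeasg _ (hMTD d Γ G Φ F0 (χ j) r0 (-(R * s)) (A.tu R) (e / 8) 1 hM hΦ (hχc j)).1
  have hvol : volume {p : P d | ‖p.1‖ ≤ r0 ∧ |Ep G p| ≤ 2 * R ^ (-(1 / 4) : ℝ)} < ⊤ :=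
    lt_of_le_of_lt (hVL G R (by linarith) hCls) ENNReal.ofReal_lt_top
  have hPS : PS Γ (YS Γ d) (mW Γ G r0 R) (DT d {1}) (dYS Ln) :=
    (hPSY d Γ _ Ln hcnt hWset hvol hLn1 hLn2 hLn3 hLn4).1
  have := hPS.sf
  have hKub : KZ Γ (dYS Ln) (ub (Γ := Γ) G Φ r0 χ0 ch A R) := hKZD d Γ Ln _ hH.ker
  have hKW : KZ Γ (dYS Ln) (stZ (fun y : YS Γ d => -thP Φ W R (A.tu R) y.2) (ub G Φ r0 χ0 ch A R)) :=
    (hKSZ Γ _ (mW Γ G r0 R) (DT d {1}) (dYS Ln) hPS).1 _ _ hWm.neg (fun γ y => rfl) hKub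
  -- the function of xi
  obtain ⟨Gf, hGf⟩ : ∃ Gf : List ℕ → (Fin J → ℝ) → ENNReal, Gf = fun l ξ =>
    ∫⁻ x in DT d {1}, ∫⁻ y in DT d {1}, ‖perZ Γ (wdZ (mW Γ G r0 R) (stZ (fun y : YS Γ d => ∑ a, ξ a * thP Φ (χ a) (-(R * s)) (A.tu R) y.2)
      (stZ (fun y : YS Γ d => -thP Φ W R (A.tu R) y.2) (ub G Φ r0 χ0 ch A R))) (SBD Γ G Φ r0 F0 h (e / 8) (A.tu R) R) l) x y‖ₑ ^ 2
        ∂mW Γ G r0 R ∂mW Γ G r0 R := ⟨_, rfl⟩
  have hmeasure : ∀ l ∈ Ad, PJ J {ξ : Fin J → ℝ | ¬ Gf l ξ ≤ ENNReal.ofReal (δ' ^ 2)} ≤ ENNReal.ofReal (R ^ (-(M0 + 1)) / δ' ^ 2) := by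
    intro l hl
    have hl' := (hAd l).1 hl
    refine VQ.PRV_markov J (Gf l) ?_ δ' _ hδ' ?_
    · let _ : MeasurableSpace Γ := ⊤
      have : DiscreteMeasurableSpace Γ := ⟨fun _ => trivial⟩
      obtain ⟨-, -, hm⟩ := hPIZ Γ _ (mW Γ G r0 R) (DT d {1}) (dYS Ln) hPS J (fun a (y : YS Γ d) => thP Φ (χ a) (-(R * s)) (A.tu R) y.2) _
        (SBD Γ G Φ r0 F0 h (e / 8) (A.tu R) R) l
        (fun a => ⟨hχm a, fun γ y => rfl⟩) hKW hSm1 hSm2 (VQ.PRV_ne hL hl')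
      have hm2 : Measurable fun q : ((Fin J → ℝ) × YS Γ d) × YS Γ d =>
          ‖perZ Γ (wdZ (mW Γ G r0 R) (stZ (fun y : YS Γ d => ∑ a, q.1.1 a * thP Φ (χ a) (-(R * s)) (A.tu R) y.2)
            (stZ (fun y : YS Γ d => -thP Φ W R (A.tu R) y.2) (ub G Φ r0 χ0 ch A R))) (SBD Γ G Φ r0 F0 h (e / 8) (A.tu R) R) l) q.1.2 q.2‖ₑ ^ 2 := by
        have hm3 := (hm.comp (g := fun p : (Fin J → ℝ) × (YS Γ d × YS Γ d) => perZ Γ (wdZ (mW Γ G r0 R) (stZ (fun y : YS Γ d => ∑ a, p.1 a * thP Φ (χ a) (-(R * s)) (A.tu R) y.2)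
            (stZ (fun y : YS Γ d => -thP Φ W R (A.tu R) y.2) (ub G Φ r0 χ0 ch A R))) (SBD Γ G Φ r0 F0 h (e / 8) (A.tu R) R) l) p.2.1 p.2.2)
          (f := fun q : ((Fin J → ℝ) × YS Γ d) × YS Γ d => (q.1.1, (q.1.2, q.2)))
          ((measurable_fst.comp measurable_fst).prodMk ((measurable_snd.comp measurable_fst).prodMk measurable_snd)))
        exact (hm3.enorm).pow_const 2
      rw [hGf]
      exact (hm2.lintegral_prod_right' (ν := (mW Γ G r0 R).restrict (DT d {1}))).lintegral_prod_right' (ν := (mW Γ G r0 R).restrict (DT d {1}))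
    · rw [hGf]
      exact hWX2 G Φ χ0 ch A R θ ζ c0 b L n nc J χ (-(R * s)) (BadP Γ G Φ F0 h (e / 8) (A.tu R)) (SBD Γ G Φ r0 F0 h (e / 8) (A.tu R) R)
        (fun y => -thP Φ W R (A.tu R) y.2) l hRc hCls hΦ hχc hH hSm1 hSm2 (fun y hy => ⟨hy.1, hy.2⟩) hWm.neg (fun γ y => rfl)
        hb hL hl' (hNst l hl') hθ hMθ
  -- the bad set
  have hsub : {ξ : Fin J → ℝ | ¬ GdB Γ K k B B' bn F0 h e R G (fun x => W x + s * VF χ ξ x)} ⊆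
      {ξ | ¬ ∀ j, |ξ j| ≤ 1} ∪ ⋃ l ∈ Ad, {ξ : Fin J → ℝ | ¬ Gf l ξ ≤ ENNReal.ofReal (δ' ^ 2)} := by
    intro ξ hbad
    by_contra hcon
    rw [Set.mem_union, not_or] at hcon
    obtain ⟨hc1, hc2⟩ := hcon
    have hξ : ∀ j, |ξ j| ≤ 1 := not_not.1 hc1
    apply hbad
    have hws : ∀ l ∈ AdZ b L n, Gf l ξ ≤ ENNReal.ofReal (δ' ^ 2) := by
      intro l hl
      by_contra h1
      exact hc2 (Set.mem_biUnion ((hAd l).2 hl) h1)
    intro G' f' μ φ hNr hf' hnear hμ hμ1 hφ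
    have hEg : EgB Γ K k B B' bn R G G' (fun x => W x + s * VF χ ξ x) f' μ φ := ⟨hNr, hW ξ hξ, hf', hnear, hμ, hμ1, hφ⟩
    have h1 := hDT2 R G G' Φ (fun x => W x + s * VF χ ξ x) f' μ φ hRb hCls hΦ hEg (fun l hl => by
      have h2 := hws l hl
      unfold HSD
      rw [PRD_KB hΦ χ hχc ξ W hWc r0 χ0 R s ch A]
      rw [hGf] at h2
      exact h2)
    refine h1.trans ?_
    refine mul_le_mul_of_nonneg_right (by linarith) ?_
    unfold nn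
    exact integral_nonneg fun z => by positivity
  have hnull : PJ J {ξ : Fin J → ℝ | ¬ ∀ j, |ξ j| ≤ 1} = 0 := (hSNC J).2.1
  refine (measure_mono hsub).trans ((measure_union_le _ _).trans ?_)
  rw [hnull, zero_add]
  have hsum : PJ J (⋃ l ∈ Ad, {ξ : Fin J → ℝ | ¬ Gf l ξ ≤ ENNReal.ofReal (δ' ^ 2)}) ≤
      ∑ l ∈ Ad, ENNReal.ofReal (R ^ (-(M0 + 1)) / δ' ^ 2) :=
    (measure_biUnion_finset_le _ _).trans (Finset.sum_le_sum fun l hl => hmeasure l hl)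
  refine hsum.trans ?_
  rw [Finset.sum_const, nsmul_eq_mul, ← ENNReal.ofReal_natCast, ← ENNReal.ofReal_mul (by positivity)]
  apply ENNReal.ofReal_le_ofReal
  have h1 : R ^ (-M0) = R ^ (-(M0 + 1)) * R := by
    rw [← Real.rpow_add_one hR0.ne']
    congr 1
    ring
  rw [h1]
  have h2 : 0 < R ^ (-(M0 + 1)) := Real.rpow_pos_of_pos hR0 _
  calc (Ad.card : ℝ) * (R ^ (-(M0 + 1)) / δ' ^ 2) = R ^ (-(M0 + 1)) * ((Ad.card : ℝ) / δ' ^ 2) := by ring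
    _ ≤ R ^ (-(M0 + 1)) * R := mul_le_mul_of_nonneg_left hRe h2.le

end

end Pool.Agent.VDI
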